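import Mathlib
import Pool.Agent.Helper605.FT.A

set_option autoImplicit false

namespace Pool.Agent.Helper732.FT2

open Pool.Agent.Helper605.FT

/-- the phase-1 list of a full order with path `s`: `{s1,s2},{s2},{s2,s3},{s3},...,{s_{m-1},s_m},{s_m}` -/
def walk : List ℕ → List (Finset ℕ)
  | a :: b :: l => {a, b} :: {b} :: walk (b :: l)
  | _ => []

/-- flexibility with prescribed phase-1 path -/
def FlexP : Prop := ∀ n, 9 ≤ n → ∀ (s' : List ℕ) (p x q : ℕ) (e' : List ℕ),
  (s' ++ [p, x]).length = n → (s' ++ [p, x]).Nodup → (x :: q :: e').Perm (s' ++ [p, x]) → q ≠ p →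
  ∃ π, PVf (s' ++ [p, x]) (x :: q :: e') π ∧ π 1 = walk (s' ++ [p, x])

end Pool.Agent.Helper732.FT2
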