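import Mathlib
import Pool.Agent.Helper605.FT.V1
import Pool.Agent.Helper732.FT2.Base

set_option autoImplicit false

namespace Pool.Agent.Helper732.FT2

open Pool.Agent.Helper605.FT

/-- correction of the length -/
def dl (k : ℕ) : ℕ := if 3 ≤ k ∧ k % 2 = 1 then 2 else 0

/-- `VVf` from phase 1 on, with exact lengths and the side conditions on `t`, `u` -/
structure VX (N t u : ℕ) (R : ℕ → Finset ℕ) (G z : List ℕ) (v : ℕ → List (Finset ℕ)) : Prop where
  V : VVf 1 N R G z v
  el : ∀ k, 1 ≤ k → k ≤ N → (v k).length + 1 = 2 * (G.length - 1).choose k + dl k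
  no1 : ∀ a ∈ v 1, t ∉ a
  no2 : ∀ a ∈ v 2, ¬ ({t, u} : Finset ℕ) ⊆ a

theorem PVf_zero {s e : List ℕ} {π : ℕ → List (Finset ℕ)} (h : PVf s e π) (hs : s ≠ []) :
    π 0 = [(s.take 1).toFinset, ∅] := by
  have h0 : 0 < s.length := List.length_pos_iff.2 hs
  have h1 := h.len 0
  have h2 := h.head 0 h0
  have h3 := h.last 0 h0
  simp only [Nat.choose_zero_right, mul_one] at h1
  match hπ : π 0, h1 with
  | [a, b], _ =>
    rw [hπ] at h2 h3
    simp only [List.head?_cons, Option.some.injEq, zero_add] at h2
    simp only [List.getLast?_cons_cons, List.getLast?_singleton, Option.some.injEq, List.take_zero,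
      List.toFinset_nil] at h3
    rw [h2, h3]

/-- TARGET -/
theorem VX.merge {N t u : ℕ} {R : ℕ → Finset ℕ} {G z e : List ℕ} {v B : ℕ → List (Finset ℕ)}
    {y : ℕ} (h : VX N t u R G z v) (hB : PVf z e B) (hy : y ∉ G)
    (htop : N ≤ G.length) (hN : 1 ≤ N) (hyt : y ≠ t) (hyu : y ≠ u)
    (hz1 : ∀ x ∈ z.head?, x ≠ t) (hB1 : ∀ a ∈ B 1, ¬ ({t, u} : Finset ℕ) ⊆ a) :
    VX N t u R (G ++ [y]) (y :: e) (fun k => v k ++ (B (k - 1)).map (insert y)) := by
  have hzl : z.length = G.length := h.V.perm.length_eq
  refine ⟨h.V.merge hB hy le_rfl htop, ?_, ?_, ?_⟩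
  · intro k h1 h2
    obtain ⟨j, rfl⟩ : ∃ j, k = j + 1 := ⟨k - 1, by omega⟩
    have h3 := h.el (j + 1) h1 h2
    have h4 := hB.len j
    have e1 : (G ++ [y]).length - 1 = (G.length - 1) + 1 := by simp; omega
    simp only [Nat.add_sub_cancel, List.length_append, List.length_map]
    simp only [List.length_append] at e1
    rw [e1, Nat.choose_succ_succ', h4, hzl]
    omega
  · intro a ha
    have hz : z ≠ [] := by
      intro hz; rw [hz] at hzl; simp at hzl; omega
    simp only [List.mem_append, Nat.sub_self] at ha
    rcases ha with ha | ha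
    · exact h.no1 a ha
    · rw [PVf_zero hB hz] at ha
      simp only [List.map_cons, List.map_nil, List.mem_cons, List.not_mem_nil, or_false] at ha
      obtain ⟨z0, z', rfl⟩ : ∃ z0 z', z = z0 :: z' := List.exists_cons_of_ne_nil hz
      have hz0 : z0 ≠ t := hz1 z0 (by simp)
      rcases ha with rfl | rfl
      · simp only [List.take_succ_cons, List.take_zero, List.toFinset_cons, List.toFinset_nil,
          Finset.mem_insert, Finset.notMem_empty, or_false, not_or]
        exact ⟨fun h => hyt h.symm, fun h => hz0 h.symm⟩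
      · simp only [Finset.mem_insert, Finset.notMem_empty, or_false]
        exact fun h => hyt h.symm
  · intro a ha
    simp only [List.mem_append, List.mem_map] at ha
    rcases ha with ha | ⟨b, hb, rfl⟩
    · exact h.no2 a ha
    · intro hsub
      apply hB1 b hb
      intro x hx
      have := hsub hx
      rcases Finset.mem_insert.1 this with rfl | h'
      · simp only [Finset.mem_insert, Finset.mem_singleton] at hx
        rcases hx with hx | hx
        · exact absurd hx hyt
        · exact absurd hx hyu
      · exact h'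

/-- TARGET -/
theorem step2' {N : ℕ} {R : ℕ → Finset ℕ} {G z w w' : List ℕ} {v B1 B2 : ℕ → List (Finset ℕ)}
    {y y2 : ℕ} (h : VVf 1 N R G z v) (hlen : G.length = N) (hN : 9 ≤ N)
    (hy : y ∉ G) (hy2 : y2 ∉ G) (hne : y ≠ y2)
    (hB1 : PVf z w B1) (hB2 : PVf (y :: w) (w' ++ [y]) B2)
    (hR1 : R (N + 1) = insert y2 G.toFinset)
    (hR2 : R (N + 2) = insert y (insert y2 G.toFinset)) :
    VVf 1 (N + 2) R (G ++ [y, y2]) (y2 :: (w' ++ [y]))
      (fun k => if k ≤ N then
        v k ++ (B1 (k - 1)).map (insert y) ++ (B2 (k - 1)).map (insert y2) else [R k]) := by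
  have h1 := h.merge hB1 hy (by norm_num) hlen.ge
  have hy2' : y2 ∉ G ++ [y] := by
    simp only [List.mem_append, List.mem_singleton, not_or]
    exact ⟨hy2, fun h => hne h.symm⟩
  have h2 := h1.merge hB2 hy2' (by norm_num) (by simp; omega)
  have eG : G ++ [y] ++ [y2] = G ++ [y, y2] := by simp
  rw [eG] at h2
  have hcardG : G.toFinset.card = N := by
    rw [List.toFinset_card_of_nodup h.nd, hlen]
  have hw'p : w'.Perm G := by
    have e1 : (y :: w').Perm (y :: w) := by
      have : (y :: w').Perm (w' ++ [y]) := List.perm_append_comm (l₁ := [y]) (l₂ := w')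
      exact this.trans hB2.perm
    exact (e1.cons_inv).trans (hB1.perm.trans h.perm)
  have hw'l : w'.length = N := by rw [hw'p.length_eq, hlen]
  have hw'f : w'.toFinset = G.toFinset := by
    ext t; simp [hw'p.mem_iff]
  have hwl : w.length = N := by
    rw [hB1.perm.length_eq, h.perm.length_eq, hlen]
  have hGmem : G.toFinset ∈ B2 N := by
    have h3 := hB2.last N (by simp; omega)
    have e2 : (w' ++ [y]).take N = w' := by
      rw [← hw'l]; simp
    rw [e2, hw'f] at h3
    exact List.mem_of_getLast? h3
  have hy2G : y2 ∉ G.toFinset := by simpa using hy2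
  have hyG : y ∉ insert y2 G.toFinset := by
    simp only [Finset.mem_insert, not_or, List.mem_toFinset]
    exact ⟨hne, hy⟩
  have hc1 : (R (N + 1)).card = N + 1 := by
    rw [hR1, Finset.card_insert_of_notMem hy2G, hcardG]
  have hc2 : (R (N + 2)).card = N + 2 := by
    rw [hR2, Finset.card_insert_of_notMem hyG, Finset.card_insert_of_notMem hy2G, hcardG]
  have hcases : ∀ k, k ≤ N + 2 → ¬ k ≤ N → k = N + 1 ∨ k = N + 2 := by
    intro k _ _; omega
  have hcardR : ∀ k, k ≤ N + 2 → ¬ k ≤ N → (R k).card = k := by
    intro k h3 h4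
    rcases hcases k h3 h4 with rfl | rfl
    · exact hc1
    · exact hc2
  have hsubR : ∀ k, k ≤ N + 2 → ¬ k ≤ N → R k ⊆ (G ++ [y, y2]).toFinset := by
    intro k h3 h4 t ht
    rcases hcases k h3 h4 with rfl | rfl
    · rw [hR1] at ht
      simp only [Finset.mem_insert, List.mem_toFinset] at ht
      simp only [List.mem_toFinset, List.mem_append, List.mem_cons, List.not_mem_nil, or_false]
      tauto
    · rw [hR2] at ht
      simp only [Finset.mem_insert, List.mem_toFinset] at ht
      simp only [List.mem_toFinset, List.mem_append, List.mem_cons, List.not_mem_nil, or_false]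
      tauto
  constructor
  · exact h2.nd
  · exact h2.perm
  · intro k h3 h4
    by_cases hk : k ≤ N
    · simp only [if_pos hk]
      exact h2.len k h3 hk
    · simp only [if_neg hk]
      have e3 : (G ++ [y, y2]).length - 1 = N + 1 := by simp; omega
      rw [e3]
      rcases hcases k h4 hk with rfl | rfl
      · simp
      · simp
  · intro k h3 h4
    by_cases hk : k ≤ N
    · simp only [if_pos hk]
      exact h2.ok k h3 hk
    · simp only [if_neg hk]
      trivial
  · intro k h3 h4 a ha
    by_cases hk : k ≤ N
    · simp only [if_pos hk] at ha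
      exact h2.card k h3 hk a ha
    · simp only [if_neg hk, List.mem_singleton] at ha
      subst ha
      exact Or.inl (hcardR k h4 hk)
  · intro k h3 h4 a ha
    by_cases hk : k ≤ N
    · simp only [if_pos hk] at ha
      exact h2.sub k h3 hk a ha
    · simp only [if_neg hk, List.mem_singleton] at ha
      subst ha
      exact hsubR k h4 hk
  · intro k h3 h4
    by_cases hk : k ≤ N
    · simp only [if_pos hk]
      exact h2.head k h3 hk
    · simp only [if_neg hk]
      rfl
  · intro k h3 h4
    by_cases hk : k ≤ N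
    · simp only [if_pos hk]
      exact h2.last k h3 hk
    · simp only [if_neg hk]
      rcases hcases k h4 hk with rfl | rfl
      · rw [hR1]
        have e4 : (y2 :: (w' ++ [y])).take (N + 1) = y2 :: w' := by
          rw [List.take_succ_cons, ← hw'l]; simp
        rw [e4]
        simp [hw'f]
      · rw [hR2]
        have e4 : (y2 :: (w' ++ [y])).take (N + 2) = y2 :: (w' ++ [y]) := by
          apply List.take_of_length_le
          simp; omega
        rw [e4]
        simp only [List.getLast?_singleton, Option.some.injEq]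
        ext t
        simp only [Finset.mem_insert, List.mem_toFinset, List.mem_cons, List.mem_append,
          List.not_mem_nil, or_false, hw'p.mem_iff]
        tauto
  · intro k l h3 hkl h4 a ha b hb hba
    by_cases hl : l ≤ N
    · have hk : k ≤ N := by omega
      simp only [if_pos hl] at hb
      simp only [if_pos hk] at ha
      exact h2.cross k l h3 hkl hl a ha b hb hba
    · simp only [if_neg hl, List.mem_singleton] at hb
      subst hb
      have hcb := hcardR l h4 hl
      have hle := Finset.card_le_card hba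
      by_cases hk : k ≤ N
      · simp only [if_pos hk] at ha
        have hca := h2.card k h3 hk a ha
        rcases hcases l h4 hl with rfl | rfl
        · rw [List.mem_append] at ha
          rw [hR1] at hba
          rcases ha with ha | ha
          · have h5 := h1.sub k h3 hk a ha
            exact hy2' (List.mem_toFinset.1 (h5 (hba (Finset.mem_insert_self _ _))))
          · rw [List.mem_map] at ha
            obtain ⟨a', ha', rfl⟩ := ha
            exact hB2.cross (k - 1) N (by omega) a' ha' _ hGmem (sub_of_ins_sub hy2G hba)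
        · omega
      · simp only [if_neg hk, List.mem_singleton] at ha
        subst ha
        have hcb' := hcardR k (by omega) hk
        omega

/-- TARGET -/
theorem VX.step2 {N t u : ℕ} {R : ℕ → Finset ℕ} {G z w w' : List ℕ} {v B1 B2 : ℕ → List (Finset ℕ)}
    {y y2 : ℕ} (h : VX N t u R G z v) (hlen : G.length = N) (hN : 9 ≤ N) (hodd : N % 2 = 1)
    (hy : y ∉ G) (hy2 : y2 ∉ G) (hne : y ≠ y2)
    (hB1 : PVf z w B1) (hB2 : PVf (y :: w) (w' ++ [y]) B2)
    (hR1 : R (N + 1) = insert y2 G.toFinset)
    (hR2 : R (N + 2) = insert y (insert y2 G.toFinset))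
    (hyt : y ≠ t) (hyu : y ≠ u) (hy2t : y2 ≠ t) (hy2u : y2 ≠ u)
    (hz1 : ∀ x ∈ z.head?, x ≠ t) (hb1 : ∀ a ∈ B1 1, ¬ ({t, u} : Finset ℕ) ⊆ a)
    (hb2 : ∀ a ∈ B2 1, ¬ ({t, u} : Finset ℕ) ⊆ a) :
    VX (N + 2) t u R (G ++ [y, y2]) (y2 :: (w' ++ [y]))
      (fun k => if k ≤ N then
        v k ++ (B1 (k - 1)).map (insert y) ++ (B2 (k - 1)).map (insert y2) else [R k]) := by
  have h1 := h.merge hB1 hy hlen.ge (by omega) hyt hyu hz1 hb1
  have hy2' : y2 ∉ G ++ [y] := by
    simp only [List.mem_append, List.mem_singleton, not_or]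
    exact ⟨hy2, fun h => hne h.symm⟩
  have h2 := h1.merge hB2 hy2' (by simp; omega) (by omega) hy2t hy2u (by simpa using hyt) hb2
  have eG : G ++ [y] ++ [y2] = G ++ [y, y2] := by simp
  rw [eG] at h2
  refine ⟨step2' h.V hlen hN hy hy2 hne hB1 hB2 hR1 hR2, ?_, ?_, ?_⟩
  · intro k h3 h4
    by_cases hk : k ≤ N
    · simp only [if_pos hk]
      exact h2.el k h3 hk
    · simp only [if_neg hk]
      have e3 : (G ++ [y, y2]).length - 1 = N + 1 := by simp; omega
      rw [e3]
      have hc : k = N + 1 ∨ k = N + 2 := by omega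
      rcases hc with rfl | rfl
      · have : dl (N + 1) = 0 := by unfold dl; rw [if_neg]; omega
        simp [this]
      · have : dl (N + 2) = 2 := by unfold dl; rw [if_pos]; omega
        simp [this]
  · have := h2.no1
    simpa [show 1 ≤ N by omega] using this
  · have := h2.no2
    simpa [show 2 ≤ N by omega] using this

end Pool.Agent.Helper732.FT2
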