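import Mathlib
import Pool.Agent.Helper605.FT.V2
import Pool.Agent.Helper732.FT2.A1

set_option autoImplicit false

namespace Pool.Agent.Helper732.FT2

open Pool.Agent.Helper605.FT

def TT (n k : ℕ) : Finset ℕ := {1, 2, 3} ∪ Finset.Icc (n + 4 - k) n

def RR (n k : ℕ) : Finset ℕ :=
  if k = 1 then {n - 1} else if k = 2 then {n - 2, 2} else if k = 3 then {n - 2, n, 1} else TT n k

def NAd (t u : ℕ) (L : List ℕ) : Prop :=
  ∃ (A : List ℕ) (c : ℕ) (B : List ℕ), L = A ++ c :: B ∧ u ∉ A ∧ u ≠ c ∧ t ∉ B ∧ t ≠ c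

theorem walk_sub : ∀ (L : List ℕ) (a : Finset ℕ), a ∈ walk L → a ⊆ L.toFinset
  | [], a, h => by simp [walk] at h
  | [x], a, h => by simp [walk] at h
  | x :: y :: L, a, h => by
    simp only [walk, List.mem_cons] at h
    rcases h with rfl | rfl | h
    · intro z hz
      simp only [Finset.mem_insert, Finset.mem_singleton] at hz
      simp only [List.toFinset_cons, Finset.mem_insert]
      tauto
    · intro z hz
      simp only [Finset.mem_singleton] at hz
      simp only [List.toFinset_cons, Finset.mem_insert]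
      tauto
    · intro z hz
      have := walk_sub (y :: L) a h hz
      simp only [List.toFinset_cons, Finset.mem_insert] at this ⊢
      tauto

theorem NAd.walk {t u : ℕ} {L : List ℕ} (h : NAd t u L) :
    ∀ a ∈ walk L, ¬ ({t, u} : Finset ℕ) ⊆ a := by
  obtain ⟨A, c, B, rfl, hA, hc, hB, htc⟩ := h
  induction A with
  | nil =>
    intro a ha hsub
    have h1 : t ∈ a := hsub (by simp)
    have h2 := walk_sub _ a ha h1
    simp only [List.nil_append, List.toFinset_cons, Finset.mem_insert, List.mem_toFinset] at h2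
    rcases h2 with h2 | h2
    · exact htc h2
    · exact hB h2
  | cons x A ih =>
    intro a ha hsub
    have hu : u ∈ a := hsub (by simp)
    simp only [List.mem_cons, not_or] at hA
    cases A with
    | nil =>
      simp only [List.cons_append, List.nil_append, Pool.Agent.Helper732.FT2.walk,
        List.mem_cons] at ha
      rcases ha with rfl | rfl | ha
      · simp only [Finset.mem_insert, Finset.mem_singleton] at hu
        rcases hu with hu | hu
        · exact hA.1 hu
        · exact hc hu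
      · simp only [Finset.mem_singleton] at hu
        exact hc hu
      · exact ih hA.2 a (by simpa using ha) hsub
    | cons b A =>
      simp only [List.cons_append, Pool.Agent.Helper732.FT2.walk,
        List.mem_cons] at ha
      simp only [List.mem_cons, not_or] at hA
      rcases ha with rfl | rfl | ha
      · simp only [Finset.mem_insert, Finset.mem_singleton] at hu
        rcases hu with hu | hu
        · exact hA.1 hu
        · exact hA.2.1 hu
      · simp only [Finset.mem_singleton] at hu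
        exact hA.2.1 hu
      · exact ih (by simp only [List.mem_cons, not_or]; exact hA.2) a (by simpa using ha) hsub

theorem NAd.cons {t u y : ℕ} {L : List ℕ} (h : NAd t u L) (hy : y ≠ u) : NAd t u (y :: L) := by
  obtain ⟨A, c, B, rfl, hA, hc, hB, htc⟩ := h
  refine ⟨y :: A, c, B, rfl, ?_, hc, hB, htc⟩
  simp only [List.mem_cons, not_or]
  exact ⟨fun h => hy h.symm, hA⟩

theorem NAd.snoc {t u y : ℕ} {L : List ℕ} (h : NAd t u L) (hy : y ≠ t) : NAd t u (L ++ [y]) := by
  obtain ⟨A, c, B, rfl, hA, hc, hB, htc⟩ := h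
  refine ⟨A, c, B ++ [y], by simp, hA, hc, ?_, htc⟩
  simp only [List.mem_append, List.mem_singleton, not_or]
  exact ⟨hB, fun h => hy h.symm⟩

/-- arrangement of `S` with prescribed first entry `x`, last entry `l`, second entry not `pz`,
second last entry not `r`, and `t`, `u` separated -/
theorem arrW (S : Finset ℕ) (hS : 9 ≤ S.card) (x l t u pz r : ℕ) (hx : x ∈ S) (hl : l ∈ S)
    (ht : t ∈ S) (hu : u ∈ S) (hnd : [x, l, t, u].Nodup) :
    ∃ (g : ℕ) (m : List ℕ) (h : ℕ), ([x, g] ++ (m ++ [h, l])).Nodup ∧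
      ([x, g] ++ (m ++ [h, l])).toFinset = S ∧ g ≠ pz ∧ h ≠ r ∧ NAd t u ([x, g] ++ (m ++ [h, l])) := by
  obtain ⟨g, hg, hgg⟩ := pick_aux S [x, l, t, u, pz] (by simp; omega)
  simp only [List.mem_cons, List.not_mem_nil, or_false, not_or] at hgg
  obtain ⟨c, hc, hcc⟩ := pick_aux S [x, l, t, u, g] (by simp; omega)
  simp only [List.mem_cons, List.not_mem_nil, or_false, not_or] at hcc
  obtain ⟨h, hh, hhh⟩ := pick_aux S [x, l, t, u, g, c, r] (by simp; omega)
  simp only [List.mem_cons, List.not_mem_nil, or_false, not_or] at hhh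
  simp only [List.nodup_cons, List.mem_cons, List.not_mem_nil, or_false, not_or, not_false_eq_true,
    List.nodup_nil, and_true] at hnd
  obtain ⟨m, hm1, hm2⟩ := arr_aux S [x, g, t, c] [u, h, l]
    (by
      simp only [List.cons_append, List.nil_append, List.nodup_cons, List.mem_cons,
        List.not_mem_nil, or_false, not_or, not_false_eq_true, List.nodup_nil, and_true]
      tauto) (by
      intro y hy
      simp only [List.cons_append, List.nil_append, List.mem_cons, List.not_mem_nil, or_false] at hy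
      rcases hy with rfl | rfl | rfl | rfl | rfl | rfl | rfl <;> assumption)
  have e : [x, g, t, c] ++ (m ++ [u, h, l]) = [x, g] ++ ((t :: c :: (m ++ [u])) ++ [h, l]) := by
    simp
  rw [e] at hm1 hm2
  refine ⟨g, t :: c :: (m ++ [u]), h, hm1, hm2, by tauto, by tauto, ?_⟩
  refine ⟨[x, g, t], c, m ++ [u, h, l], by simp, ?_, by tauto, ?_, by tauto⟩
  · simp only [List.mem_cons, List.not_mem_nil, or_false, not_or]
    tauto
  · intro htm
    have e2 : [x, g] ++ ((t :: c :: (m ++ [u])) ++ [h, l]) = [x, g] ++ (t :: c :: (m ++ [u, h, l])) := by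
      simp
    rw [e2] at hm1
    have h3 : (t :: c :: (m ++ [u, h, l])).Nodup := (List.nodup_append.1 hm1).2.1
    rw [List.nodup_cons] at h3
    exact h3.1 (List.mem_cons_of_mem _ htm)

def Stage (n N : ℕ) : Prop := ∃ (s' : List ℕ) (p : ℕ) (G : List ℕ) (v : ℕ → List (Finset ℕ)),
  p ≠ 1 ∧ (∀ x ∈ (s' ++ [p, n + 4 - N]).head?, x ≠ n - 2) ∧ NAd (n - 2) n (s' ++ [p, n + 4 - N]) ∧
  G.toFinset = TT n N ∧ VX N (n - 2) n (RR n) G (s' ++ [p, n + 4 - N]) v

theorem TT_card {n N : ℕ} (hN : 4 ≤ N) (hNn : N ≤ n - 1) : (TT n N).card = N := by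
  unfold TT
  rw [Finset.card_union_of_disjoint]
  · simp
    omega
  · rw [Finset.disjoint_left]
    intro a ha hb
    simp only [Finset.mem_insert, Finset.mem_singleton, Finset.mem_Icc] at ha hb
    omega

theorem mem_TT {n N a : ℕ} : a ∈ TT n N ↔ (a = 1 ∨ a = 2 ∨ a = 3) ∨ (n + 4 - N ≤ a ∧ a ≤ n) := by
  simp only [TT, Finset.mem_union, Finset.mem_insert, Finset.mem_singleton, Finset.mem_Icc]

theorem Stage_step (flex : FlexP) {n N : ℕ} (hn : 13 ≤ n) (hN : 9 ≤ N) (hodd : N % 2 = 1)
    (hNn : N + 2 ≤ n - 1) (h : Stage n N) : Stage n (N + 2) := by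
  obtain ⟨s', p, G, v, hp, hhd, hna, hG, hV⟩ := h
  have hGl : G.length = N := by
    rw [← List.toFinset_card_of_nodup hV.V.nd, hG, TT_card (by omega) (by omega)]
  have hzf : (s' ++ [p, n + 4 - N]).toFinset = TT n N := by
    rw [← hG]; ext x; simp only [List.mem_toFinset]; exact hV.V.perm.mem_iff
  have hznd : (s' ++ [p, n + 4 - N]).Nodup := hV.V.perm.nodup_iff.2 hV.V.nd
  have hzl : (s' ++ [p, n + 4 - N]).length = N := by rw [hV.V.perm.length_eq, hGl]
  have hcard : 9 ≤ (TT n N).card := by rw [TT_card (by omega) (by omega)]; exact hN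
  have hxS : n + 4 - N ∈ TT n N := by rw [mem_TT]; omega
  have htS : n - 2 ∈ TT n N := by rw [mem_TT]; omega
  have huS : n ∈ TT n N := by rw [mem_TT]; omega
  -- choose l
  obtain ⟨l, hl, hll⟩ := pick_aux (TT n N) [n + 4 - N, n - 2, n] (by simp only [List.length_cons, List.length_nil]; omega)
  simp only [List.mem_cons, List.not_mem_nil, or_false, not_or] at hll
  obtain ⟨g, m, hh, hw1, hw2, hgp, _, hwna⟩ := arrW (TT n N) hcard (n + 4 - N) l (n - 2) n p 0 hxS hl
    htS huS (by
      simp only [List.nodup_cons, List.mem_cons, List.not_mem_nil, or_false, not_or,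
        not_false_eq_true, List.nodup_nil, and_true]
      omega)
  obtain ⟨l', hl', hll'⟩ := pick_aux (TT n N) [l, n - 2, n, 1] (by simp only [List.length_cons, List.length_nil]; omega)
  simp only [List.mem_cons, List.not_mem_nil, or_false, not_or] at hll'
  obtain ⟨g', m', hh', hw1', hw2', hgp', _, hwna'⟩ := arrW (TT n N) hcard l l' (n - 2) n hh 0 hl hl'
    htS huS (by
      simp only [List.nodup_cons, List.mem_cons, List.not_mem_nil, or_false, not_or,
        not_false_eq_true, List.nodup_nil, and_true]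
      omega)
  have hyS : n + 2 - N ∉ TT n N := by rw [mem_TT]; omega
  have hy2S : n + 3 - N ∉ TT n N := by rw [mem_TT]; omega
  have hwl : ([n + 4 - N, g] ++ (m ++ [hh, l])).length = N := by
    rw [← List.toFinset_card_of_nodup hw1, hw2, TT_card (by omega) (by omega)]
  have hyw : n + 2 - N ∉ ([n + 4 - N, g] ++ (m ++ [hh, l])) := by
    intro h; apply hyS; rw [← hw2]; exact List.mem_toFinset.2 h
  have hyw' : n + 2 - N ∉ ([l, g'] ++ (m' ++ [hh', l'])) := by
    intro h; apply hyS; rw [← hw2']; exact List.mem_toFinset.2 h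
  obtain ⟨B1, hB1, hB11⟩ : ∃ π, PVf (s' ++ [p, n + 4 - N]) ([n + 4 - N, g] ++ (m ++ [hh, l])) π ∧
      π 1 = walk (s' ++ [p, n + 4 - N]) := by
    refine flex N (by omega) s' p (n + 4 - N) g (m ++ [hh, l]) hzl hznd ?_ hgp
    exact List.perm_of_nodup_nodup_toFinset_eq hw1 hznd (by rw [hzf]; exact hw2)
  obtain ⟨B2, hB2, hB21⟩ : ∃ π, PVf ((n + 2 - N) :: ([n + 4 - N, g] ++ (m ++ [hh, l])))
      (([l, g'] ++ (m' ++ [hh', l'])) ++ [n + 2 - N]) π ∧
      π 1 = walk ((n + 2 - N) :: ([n + 4 - N, g] ++ (m ++ [hh, l]))) := by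
    have e1 : (n + 2 - N) :: ([n + 4 - N, g] ++ (m ++ [hh, l])) =
        ((n + 2 - N) :: ([n + 4 - N, g] ++ m)) ++ [hh, l] := by simp
    have e2 : (([l, g'] ++ (m' ++ [hh', l'])) ++ [n + 2 - N]) =
        l :: g' :: (m' ++ [hh', l'] ++ [n + 2 - N]) := by simp
    have hnd1 : ((n + 2 - N) :: ([n + 4 - N, g] ++ (m ++ [hh, l]))).Nodup :=
      List.nodup_cons.2 ⟨hyw, hw1⟩
    have hnd2 : (([l, g'] ++ (m' ++ [hh', l'])) ++ [n + 2 - N]).Nodup := by
      rw [List.nodup_append]
      refine ⟨hw1', by simp, ?_⟩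
      intro x hx z hz hxz
      rw [List.mem_singleton] at hz
      subst hz; subst hxz
      exact hyw' hx
    rw [e1, e2]
    refine flex (N + 1) (by omega) _ hh l g' _ ?_ ?_ ?_ hgp'
    · rw [← e1, List.length_cons, hwl]
    · rw [← e1]; exact hnd1
    · rw [← e1, ← e2]
      apply List.perm_of_nodup_nodup_toFinset_eq hnd2 hnd1
      rw [List.toFinset_append, hw2', List.toFinset_cons (l := [n + 4 - N, g] ++ (m ++ [hh, l])), hw2]
      ext x; simp [or_comm]
  have hR1 : RR n (N + 1) = insert (n + 3 - N) G.toFinset := by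
    rw [hG]
    unfold RR
    rw [if_neg (by omega), if_neg (by omega), if_neg (by omega)]
    ext x
    rw [Finset.mem_insert, mem_TT, mem_TT]
    omega
  have hR2 : RR n (N + 2) = insert (n + 2 - N) (insert (n + 3 - N) G.toFinset) := by
    rw [hG]
    unfold RR
    rw [if_neg (by omega), if_neg (by omega), if_neg (by omega)]
    ext x
    rw [Finset.mem_insert, Finset.mem_insert, mem_TT, mem_TT]
    omega
  have hyG : n + 2 - N ∉ G := by
    intro h; apply hyS; rw [← hG]; exact List.mem_toFinset.2 h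
  have hy2G : n + 3 - N ∉ G := by
    intro h; apply hy2S; rw [← hG]; exact List.mem_toFinset.2 h
  have hwna2 : NAd (n - 2) n ((n + 2 - N) :: ([n + 4 - N, g] ++ (m ++ [hh, l]))) :=
    hwna.cons (by omega)
  have hfin := hV.step2 hGl hN hodd hyG hy2G (by omega) hB1 hB2 hR1 hR2 (by omega) (by omega)
    (by omega) (by omega) hhd (by rw [hB11]; exact hna.walk) (by rw [hB21]; exact hwna2.walk)
  have e3 : (n + 3 - N) :: (([l, g'] ++ (m' ++ [hh', l'])) ++ [n + 2 - N]) =
      ((n + 3 - N) :: l :: g' :: (m' ++ [hh'])) ++ [l', n + 4 - (N + 2)] := by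
    have : n + 4 - (N + 2) = n + 2 - N := by omega
    rw [this]; simp
  have hzna : NAd (n - 2) n ((n + 3 - N) :: (([l, g'] ++ (m' ++ [hh', l'])) ++ [n + 2 - N])) :=
    (hwna'.snoc (by omega)).cons (by omega)
  have hGf : (G ++ [n + 2 - N, n + 3 - N]).toFinset = TT n (N + 2) := by
    rw [List.toFinset_append, hG]
    ext x
    simp only [Finset.mem_union, mem_TT, List.mem_toFinset, List.mem_cons, List.not_mem_nil,
      or_false]
    omega
  rw [e3] at hfin hzna
  refine ⟨(n + 3 - N) :: l :: g' :: (m' ++ [hh']), l', G ++ [n + 2 - N, n + 3 - N], _, hll'.2.2.2,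
    ?_, hzna, hGf, hfin⟩
  intro x hx
  simp only [List.cons_append, List.head?_cons, Option.mem_def, Option.some.injEq] at hx
  omega

end Pool.Agent.Helper732.FT2
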