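import Mathlib
import Pool.Agent.Helper732.FT2.A2

set_option autoImplicit false

namespace Pool.Agent.Helper732.FT2

open Pool.Agent.Helper605.FT

theorem VX.relabel {N t u : ℕ} {R : ℕ → Finset ℕ} {G z : List ℕ} {v : ℕ → List (Finset ℕ)}
    (h : VX N t u R G z v) {f : ℕ → ℕ} (hf : Function.Injective f) {R' : ℕ → Finset ℕ}
    (hR : ∀ k, 1 ≤ k → k ≤ N → R' k = (R k).image f) :
    VX N (f t) (f u) R' (G.map f) (z.map f) (fun k => (v k).map (Finset.image f)) := by
  refine ⟨⟨h.V.nd.map hf, h.V.perm.map f, ?_, ?_, ?_, ?_, ?_, ?_, ?_⟩, ?_, ?_, ?_⟩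
  · intro k h1 h2
    simpa using h.V.len k h1 h2
  · intro k h1 h2
    exact (h.V.ok k h1 h2).image hf
  · intro k h1 h2 a ha
    rw [List.mem_map] at ha
    obtain ⟨b, hb, rfl⟩ := ha
    rw [Finset.card_image_of_injective _ hf]
    exact h.V.card k h1 h2 b hb
  · intro k h1 h2 a ha
    rw [List.mem_map] at ha
    obtain ⟨b, hb, rfl⟩ := ha
    rw [toFinset_map]
    exact Finset.image_subset_image (h.V.sub k h1 h2 b hb)
  · intro k h1 h2
    simp only [List.head?_map, h.V.head k h1 h2, Option.map_some]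
    rw [hR k h1 h2]
  · intro k h1 h2
    simp only [List.getLast?_map, h.V.last k h1 h2, Option.map_some, ← List.map_take, toFinset_map]
  · intro k l h1 hkl h2 a ha b hb hba
    rw [List.mem_map] at ha hb
    obtain ⟨c, hc, rfl⟩ := ha
    obtain ⟨d, hd, rfl⟩ := hb
    exact h.V.cross k l h1 hkl h2 c hc d hd ((Finset.image_subset_image_iff hf).1 hba)
  · intro k h1 h2
    simpa using h.el k h1 h2
  · intro a ha
    rw [List.mem_map] at ha
    obtain ⟨b, hb, rfl⟩ := ha
    rw [Finset.mem_image]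
    rintro ⟨x, hx, hxt⟩
    have := hf hxt
    subst this
    exact h.no1 b hb hx
  · intro a ha hsub
    rw [List.mem_map] at ha
    obtain ⟨b, hb, rfl⟩ := ha
    apply h.no2 b hb
    have e : ({f t, f u} : Finset ℕ) = ({t, u} : Finset ℕ).image f := by
      rw [Finset.image_insert, Finset.image_singleton]
    rw [e] at hsub
    exact (Finset.image_subset_image_iff hf).1 hsub

def R9 (k : ℕ) : Finset ℕ :=
  if k = 1 then {5} else if k = 2 then {6, 2} else if k = 3 then {6, 4, 1} else Finset.Icc 1 k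

def rf (n i : ℕ) : ℕ := if i ≤ 3 then i else if i ≤ 9 then n + 4 - i else i + n

theorem rf_inj {n : ℕ} (hn : 13 ≤ n) : Function.Injective (rf n) := by
  intro i j h
  unfold rf at h
  split_ifs at h <;> omega

theorem Stage_base (hbase : ∃ v, VX 9 6 4 R9 (List.range' 1 9) [8, 3, 5, 6, 2, 1, 7, 4, 9] v)
    {n : ℕ} (hn : 13 ≤ n) : Stage n 9 := by
  obtain ⟨v, hv⟩ := hbase
  have hR : ∀ k, 1 ≤ k → k ≤ 9 → RR n k = (R9 k).image (rf n) := by
    intro k h1 h2
    unfold RR R9
    by_cases hk1 : k = 1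
    · subst hk1
      simp only [if_true, Finset.image_singleton, Finset.singleton_inj]
      unfold rf; simp <;> omega
    by_cases hk2 : k = 2
    · subst hk2
      rw [if_neg (by norm_num), if_pos rfl, if_neg (by norm_num), if_pos rfl,
        Finset.image_insert, Finset.image_singleton]
      have e1 : rf n 6 = n - 2 := by unfold rf; simp <;> omega
      have e2 : rf n 2 = 2 := by unfold rf; simp
      rw [e1, e2]
    by_cases hk3 : k = 3
    · subst hk3
      rw [if_neg (by norm_num), if_neg (by norm_num), if_pos rfl, if_neg (by norm_num),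
        if_neg (by norm_num), if_pos rfl, Finset.image_insert, Finset.image_insert,
        Finset.image_singleton]
      have e1 : rf n 6 = n - 2 := by unfold rf; simp <;> omega
      have e2 : rf n 4 = n := by unfold rf; simp
      have e3 : rf n 1 = 1 := by unfold rf; simp
      rw [e1, e2, e3]
    · rw [if_neg hk1, if_neg hk2, if_neg hk3, if_neg hk1, if_neg hk2, if_neg hk3]
      ext x
      rw [mem_TT, Finset.mem_image]
      constructor
      · rintro ((h | h | h) | ⟨h3, h4⟩)
        · exact ⟨1, by simp <;> omega, by unfold rf; simp [h]⟩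
        · exact ⟨2, by simp <;> omega, by unfold rf; simp [h]⟩
        · exact ⟨3, by simp <;> omega, by unfold rf; simp [h]⟩
        · refine ⟨n + 4 - x, by simp <;> omega, ?_⟩
          unfold rf
          rw [if_neg (by omega), if_pos (by omega)]
          omega
      · rintro ⟨y, hy, rfl⟩
        rw [Finset.mem_Icc] at hy
        unfold rf
        split_ifs <;> omega
  have h := hv.relabel (rf_inj hn) hR
  have e6 : rf n 6 = n - 2 := by unfold rf; simp <;> omega
  have e4 : rf n 4 = n := by unfold rf; simp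
  have e8 : rf n 8 = n - 4 := by unfold rf; simp <;> omega
  have e3 : rf n 3 = 3 := by unfold rf; simp
  have e5 : rf n 5 = n - 1 := by unfold rf; simp <;> omega
  have e2 : rf n 2 = 2 := by unfold rf; simp
  have e1 : rf n 1 = 1 := by unfold rf; simp
  have e7 : rf n 7 = n - 3 := by unfold rf; simp <;> omega
  have e9 : rf n 9 = n + 4 - 9 := by unfold rf; simp
  rw [e6, e4] at h
  simp only [List.map_cons, List.map_nil, e6, e4, e8, e3, e5, e2, e1, e7, e9] at h
  refine ⟨[n - 4, 3, n - 1, n - 2, 2, 1, n - 3], n, (List.range' 1 9).map (rf n), _, by omega, ?_,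
    ?_, ?_, h⟩
  · intro x hx
    simp only [List.cons_append, List.head?_cons, Option.mem_def, Option.some.injEq] at hx
    omega
  · refine ⟨[n - 4, 3, n - 1, n - 2], 2, [1, n - 3, n, n + 4 - 9], rfl, ?_, by omega, ?_, by omega⟩
    · simp only [List.mem_cons, List.not_mem_nil, or_false, not_or]; omega
    · simp only [List.mem_cons, List.not_mem_nil, or_false, not_or]; omega
  · have := hR 9 (by norm_num) le_rfl
    unfold RR at this
    rw [if_neg (by norm_num), if_neg (by norm_num), if_neg (by norm_num)] at this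
    rw [this]
    rw [toFinset_map]
    congr 1

theorem Stage_all (flex : FlexP)
    (hbase : ∃ v, VX 9 6 4 R9 (List.range' 1 9) [8, 3, 5, 6, 2, 1, 7, 4, 9] v)
    {n : ℕ} (hn : 13 ≤ n) : ∀ j, 9 + 2 * j ≤ n - 1 → Stage n (9 + 2 * j) := by
  intro j
  induction j with
  | zero => intro _; exact Stage_base hbase hn
  | succ j ih =>
    intro hj
    have e : 9 + 2 * (j + 1) = (9 + 2 * j) + 2 := by ring
    rw [e]
    exact Stage_step (N := 9 + 2 * j) flex hn (by omega) (by omega) (by omega) (ih (by omega))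

/-- the flag of the last sets of the A-lists (= first sets of the C-lists) -/
def SF (n : ℕ) : List ℕ :=
  if n % 2 = 1 then 5 :: 1 :: (n - 1) :: 4 :: (List.range' 6 (n - 9) ++ [2, 3, n - 3, n - 2, n])
  else 4 :: 5 :: 1 :: (n - 1) :: (List.range' 6 (n - 9) ++ [2, 3, n - 3, n - 2, n])

/-- the A-side of the construction -/
structure ASide (n top : ℕ) (v : ℕ → List (Finset ℕ)) : Prop where
  len : ∀ k, 1 ≤ k → k ≤ top → (v k).length + 1 = 2 * (n - 1).choose k + dl k
  ok : ∀ k, 1 ≤ k → k ≤ top → Ok (v k)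
  card : ∀ k, 1 ≤ k → k ≤ top → ∀ a ∈ v k, a.card = k ∨ a.card = k + 1
  sub : ∀ k, 1 ≤ k → k ≤ top → ∀ a ∈ v k, a ⊆ Finset.Icc 1 n
  head : ∀ k, 1 ≤ k → k ≤ top → (v k).head? = some (RR n k)
  last : ∀ k, 1 ≤ k → k ≤ top → (v k).getLast? = some ((SF n).take k).toFinset
  cross : ∀ k l, 1 ≤ k → k < l → l ≤ top → ∀ a ∈ v k, ∀ b ∈ v l, ¬ b ⊆ a
  no1 : ∀ a ∈ v 1, n - 2 ∉ a
  no2 : ∀ a ∈ v 2, ¬ ({n - 2, n} : Finset ℕ) ⊆ a

theorem ASide_of {n top : ℕ} {G : List ℕ} {v : ℕ → List (Finset ℕ)} (hG : G.toFinset = Finset.Icc 1 n)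
    (h : VX top (n - 2) n (RR n) G (SF n) v) : ASide n top v := by
  have hGl : G.length = n := by
    rw [← List.toFinset_card_of_nodup h.V.nd, hG]; simp
  refine ⟨?_, h.V.ok, h.V.card, ?_, h.V.head, h.V.last, h.V.cross, h.no1, h.no2⟩
  · intro k h1 h2
    have := h.el k h1 h2
    rwa [hGl] at this
  · intro k h1 h2 a ha
    have := h.V.sub k h1 h2 a ha
    rwa [hG] at this

theorem A_even (flex : FlexP)
    (hbase : ∃ v, VX 9 6 4 R9 (List.range' 1 9) [8, 3, 5, 6, 2, 1, 7, 4, 9] v)
    {n : ℕ} (hn : 13 ≤ n) (hev : n % 2 = 0) : ∃ v, ASide n (n - 1) v := by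
  have hS : Stage n (n - 1) := by
    have := Stage_all flex hbase hn ((n - 10) / 2) (by omega)
    have e : 9 + 2 * ((n - 10) / 2) = n - 1 := by omega
    rwa [e] at this
  obtain ⟨s', p, G, v, hp, hhd, hna, hG, hV⟩ := hS
  have e5 : n + 4 - (n - 1) = 5 := by omega
  rw [e5] at hhd hna hV
  have hGl : G.length = n - 1 := by
    rw [← List.toFinset_card_of_nodup hV.V.nd, hG, TT_card (by omega) (by omega)]
  have hzf : (s' ++ [p, 5]).toFinset = TT n (n - 1) := by
    rw [← hG]; ext x; simp only [List.mem_toFinset]; exact hV.V.perm.mem_iff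
  have hznd : (s' ++ [p, 5]).Nodup := hV.V.perm.nodup_iff.2 hV.V.nd
  have hzl : (s' ++ [p, 5]).length = n - 1 := by rw [hV.V.perm.length_eq, hGl]
  have hSF : SF n = 4 :: 5 :: 1 :: (n - 1) :: (List.range' 6 (n - 9) ++ [2, 3, n - 3, n - 2, n]) := by
    unfold SF; rw [if_neg (by omega)]
  have hnd : (5 :: 1 :: (n - 1) :: (List.range' 6 (n - 9) ++ [2, 3, n - 3, n - 2, n])).Nodup := by
    rw [List.nodup_cons, List.nodup_cons, List.nodup_cons, List.nodup_append]
    refine ⟨?_, ?_, ?_, List.nodup_range', ?_, ?_⟩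
    · simp [List.mem_range'_1]; omega
    · simp [List.mem_range'_1]; omega
    · simp [List.mem_range'_1]; omega
    · simp; omega
    · intro a ha b hb
      simp only [List.mem_range'_1, List.mem_cons, List.not_mem_nil, or_false] at ha hb
      omega
  have hfs : (5 :: 1 :: (n - 1) :: (List.range' 6 (n - 9) ++ [2, 3, n - 3, n - 2, n])).toFinset =
      TT n (n - 1) := by
    ext x
    rw [mem_TT]
    simp only [List.mem_toFinset, List.mem_cons, List.mem_append, List.mem_range'_1,
      List.not_mem_nil, or_false]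
    omega
  obtain ⟨B, hB, hB1⟩ : ∃ π, PVf (s' ++ [p, 5])
      (5 :: 1 :: (n - 1) :: (List.range' 6 (n - 9) ++ [2, 3, n - 3, n - 2, n])) π ∧
      π 1 = walk (s' ++ [p, 5]) := by
    refine flex (n - 1) (by omega) s' p 5 1 _ hzl hznd ?_ (fun h => hp h.symm)
    exact List.perm_of_nodup_nodup_toFinset_eq hnd hznd (by rw [hzf, hfs])
  have h4G : 4 ∉ G := by
    intro h
    have : (4:ℕ) ∈ G.toFinset := List.mem_toFinset.2 h
    rw [hG, mem_TT] at this; omega
  have hfin := hV.merge hB h4G (by omega) (by omega) (by omega) (by omega) hhd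
    (by rw [hB1]; exact hna.walk)
  rw [← hSF] at hfin
  refine ⟨_, ASide_of ?_ hfin⟩
  rw [List.toFinset_append, hG]
  ext x
  simp only [Finset.mem_union, mem_TT, List.mem_toFinset, List.mem_cons, List.not_mem_nil,
    or_false, Finset.mem_Icc]
  omega

theorem A_odd (flex : FlexP)
    (hbase : ∃ v, VX 9 6 4 R9 (List.range' 1 9) [8, 3, 5, 6, 2, 1, 7, 4, 9] v)
    {n : ℕ} (hn : 13 ≤ n) (hodd : n % 2 = 1) : ∃ v, ASide n (n - 2) v ∧
      ∀ k, 1 ≤ k → k ≤ n - 2 → ∀ a ∈ v k, ¬ Finset.Icc 1 (n - 1) ⊆ a := by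
  have hS : Stage n (n - 2) := by
    have := Stage_all flex hbase hn ((n - 11) / 2) (by omega)
    have e : 9 + 2 * ((n - 11) / 2) = n - 2 := by omega
    rwa [e] at this
  obtain ⟨s', p, G, v, hp, hhd, hna, hG, hV⟩ := hS
  have e6 : n + 4 - (n - 2) = 6 := by omega
  rw [e6] at hhd hna hV
  have hGl : G.length = n - 2 := by
    rw [← List.toFinset_card_of_nodup hV.V.nd, hG, TT_card (by omega) (by omega)]
  have hzf : (s' ++ [p, 6]).toFinset = TT n (n - 2) := by
    rw [← hG]; ext x; simp only [List.mem_toFinset]; exact hV.V.perm.mem_iff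
  have hznd : (s' ++ [p, 6]).Nodup := hV.V.perm.nodup_iff.2 hV.V.nd
  have hzl : (s' ++ [p, 6]).length = n - 2 := by rw [hV.V.perm.length_eq, hGl]
  have hSF : SF n = 5 :: 1 :: (n - 1) :: 4 :: (List.range' 6 (n - 9) ++ [2, 3, n - 3, n - 2, n]) := by
    unfold SF; rw [if_pos (by omega)]
  have hcard : 9 ≤ (TT n (n - 2)).card := by rw [TT_card (by omega) (by omega)]; omega
  obtain ⟨g, m, hh, hw1, hw2, hgp, hhr, hwna⟩ := arrW (TT n (n - 2)) hcard 6 1 (n - 2) n p (n - 1)
    (by rw [mem_TT]; omega) (by rw [mem_TT]; omega) (by rw [mem_TT]; omega) (by rw [mem_TT]; omega)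
    (by
      simp only [List.nodup_cons, List.mem_cons, List.not_mem_nil, or_false, not_or,
        not_false_eq_true, List.nodup_nil, and_true]
      omega)
  have hwl : ([6, g] ++ (m ++ [hh, 1])).length = n - 2 := by
    rw [← List.toFinset_card_of_nodup hw1, hw2, TT_card (by omega) (by omega)]
  have h4S : 4 ∉ TT n (n - 2) := by rw [mem_TT]; omega
  have h5S : 5 ∉ TT n (n - 2) := by rw [mem_TT]; omega
  have h4w : 4 ∉ ([6, g] ++ (m ++ [hh, 1])) := by
    intro h; apply h4S; rw [← hw2]; exact List.mem_toFinset.2 h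
  obtain ⟨B1, hB1, hB11⟩ : ∃ π, PVf (s' ++ [p, 6]) ([6, g] ++ (m ++ [hh, 1])) π ∧
      π 1 = walk (s' ++ [p, 6]) := by
    refine flex (n - 2) (by omega) s' p 6 g (m ++ [hh, 1]) hzl hznd ?_ hgp
    exact List.perm_of_nodup_nodup_toFinset_eq hw1 hznd (by rw [hzf]; exact hw2)
  have hnd : (1 :: (n - 1) :: 4 :: (List.range' 6 (n - 9) ++ [2, 3, n - 3, n - 2, n])).Nodup := by
    rw [List.nodup_cons, List.nodup_cons, List.nodup_cons, List.nodup_append]
    refine ⟨?_, ?_, ?_, List.nodup_range', ?_, ?_⟩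
    · simp [List.mem_range'_1]; omega
    · simp [List.mem_range'_1]; omega
    · simp [List.mem_range'_1]; omega
    · simp; omega
    · intro a ha b hb
      simp only [List.mem_range'_1, List.mem_cons, List.not_mem_nil, or_false] at ha hb
      omega
  obtain ⟨B2, hB2, hB21⟩ : ∃ π, PVf (4 :: ([6, g] ++ (m ++ [hh, 1])))
      (1 :: (n - 1) :: 4 :: (List.range' 6 (n - 9) ++ [2, 3, n - 3, n - 2, n])) π ∧
      π 1 = walk (4 :: ([6, g] ++ (m ++ [hh, 1]))) := by
    have e1 : 4 :: ([6, g] ++ (m ++ [hh, 1])) = (4 :: ([6, g] ++ m)) ++ [hh, 1] := by simp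
    have hnd1 : (4 :: ([6, g] ++ (m ++ [hh, 1]))).Nodup := List.nodup_cons.2 ⟨h4w, hw1⟩
    rw [e1]
    refine flex (n - 1) (by omega) _ hh 1 (n - 1) _ ?_ ?_ ?_ (fun h => hhr h.symm)
    · rw [← e1, List.length_cons, hwl]; omega
    · rw [← e1]; exact hnd1
    · rw [← e1]
      apply List.perm_of_nodup_nodup_toFinset_eq hnd hnd1
      rw [List.toFinset_cons (a := 4) (l := [6, g] ++ (m ++ [hh, 1])), hw2]
      ext x
      simp only [Finset.mem_insert, mem_TT, List.mem_toFinset, List.mem_cons, List.mem_append,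
        List.mem_range'_1, List.not_mem_nil, or_false]
      omega
  have h4G : 4 ∉ G := by
    intro h
    have : (4:ℕ) ∈ G.toFinset := List.mem_toFinset.2 h
    rw [hG, mem_TT] at this; omega
  have h5G : 5 ∉ G := by
    intro h
    have : (5:ℕ) ∈ G.toFinset := List.mem_toFinset.2 h
    rw [hG, mem_TT] at this; omega
  have hf1 := hV.merge hB1 h4G (by omega) (by omega) (by omega) (by omega) hhd
    (by rw [hB11]; exact hna.walk)
  have h5G' : 5 ∉ G ++ [4] := by
    simp only [List.mem_append, List.mem_singleton, not_or]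
    exact ⟨h5G, by omega⟩
  have hwna2 : NAd (n - 2) n (4 :: ([6, g] ++ (m ++ [hh, 1]))) := hwna.cons (by omega)
  have hf2 := hf1.merge hB2 h5G' (by rw [List.length_append, hGl, List.length_singleton]; omega)
    (by omega) (by omega) (by omega) (by
      intro x hx
      simp only [List.head?_cons, Option.mem_def, Option.some.injEq] at hx
      omega) (by rw [hB21]; exact hwna2.walk)
  rw [← hSF] at hf2
  refine ⟨_, ASide_of ?_ hf2, ?_⟩
  · rw [List.toFinset_append, List.toFinset_append, hG]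
    ext x
    simp only [Finset.mem_union, mem_TT, List.mem_toFinset, List.mem_cons, List.not_mem_nil,
      or_false, Finset.mem_Icc]
    omega
  · intro k hk1 hk2 a ha hsub
    have h5a : 5 ∈ a := hsub (by rw [Finset.mem_Icc]; omega)
    have hn1a : n - 1 ∈ a := hsub (by rw [Finset.mem_Icc]; omega)
    simp only [List.mem_append, List.mem_map] at ha
    rcases ha with (ha | ⟨b, hb, rfl⟩) | ⟨b, hb, rfl⟩
    · have := hV.V.sub k hk1 hk2 a ha h5a
      exact h5G (List.mem_toFinset.1 this)
    · rcases Finset.mem_insert.1 h5a with h | h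
      · omega
      · have := hB1.sub _ b hb h
        rw [hzf] at this
        exact h5S this
    · have hlast := hB2.last (n - 2) (by rw [List.length_cons, hwl]; omega)
      have hmem := List.mem_of_getLast? hlast
      refine hB2.cross (k - 1) (n - 2) (by omega) b hb _ hmem ?_
      intro x hx
      have e7 : (1 :: (n - 1) :: 4 :: (List.range' 6 (n - 9) ++ [2, 3, n - 3, n - 2, n])) =
          (1 :: (n - 1) :: 4 :: (List.range' 6 (n - 9) ++ [2, 3, n - 3, n - 2])) ++ [n] := by simp
      have e8 : ((1 :: (n - 1) :: 4 :: (List.range' 6 (n - 9) ++ [2, 3, n - 3, n - 2])) ++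
          [n]).take (n - 2) = (1 :: (n - 1) :: 4 :: (List.range' 6 (n - 9) ++ [2, 3, n - 3, n - 2])) := by
        apply List.take_left'
        simp; omega
      rw [e7, e8] at hx
      simp only [List.mem_toFinset, List.mem_cons, List.mem_append,
        List.mem_range'_1, List.not_mem_nil, or_false] at hx
      have hx2 : x ∈ insert 5 b := hsub (by rw [Finset.mem_Icc]; omega)
      rcases Finset.mem_insert.1 hx2 with h | h
      · omega
      · exact h

end Pool.Agent.Helper732.FT2
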