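import Mathlib
import Pool.Agent.Helper732.FT2.A3
import Pool.Agent.Helper621.FT.Flex
import Pool.Agent.Helper321.FT.ABaseX

set_option autoImplicit false

namespace Pool.Agent.Helper732.FT2

open Pool.Agent.Helper605.FT

theorem hbaseA : ∃ v, VX 9 6 4 R9 (List.range' 1 9) [8, 3, 5, 6, 2, 1, 7, 4, 9] v := by
  have e : Pool.Agent.Helper321.FT.R9 = R9 := by
    funext k
    rfl
  rw [← e]
  exact Pool.Agent.Helper321.FT.abase'

theorem A_even' {n : ℕ} (hn : 13 ≤ n) (hev : n % 2 = 0) : ∃ v, ASide n (n - 1) v :=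
  A_even Pool.Agent.Helper621.FT.flexP hbaseA hn hev

theorem A_odd' {n : ℕ} (hn : 13 ≤ n) (hodd : n % 2 = 1) : ∃ v, ASide n (n - 2) v ∧
      ∀ k, 1 ≤ k → k ≤ n - 2 → ∀ a ∈ v k, ¬ Finset.Icc 1 (n - 1) ⊆ a :=
  A_odd Pool.Agent.Helper621.FT.flexP hbaseA hn hodd

end Pool.Agent.Helper732.FT2
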